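import Pool.Agent.Helper21.MH.Sim

/-!
The `ℓ`-adic side (project CF for MP_b8862a_ag): definitions. After an isomorphism of `ℂ_ℓ` with `ℂ` the Galois
group acts through a subgroup `Γ` of `GL n ℂ`.
-/

set_option linter.unusedSectionVars false

open Matrix

namespace MH

variable {n : Type*} [Fintype n] [DecidableEq n]

/-- The tensor `t` is fixed by a subgroup of finite index of `Γ`. -/
def IsTateTensor (Γ : Subgroup (GL n ℂ)) (a b : ℕ) (t : (Fin a ⊕ Fin b → n) → ℂ) : Prop :=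
  ∃ Γ' : Subgroup (GL n ℂ), Γ' ≤ Γ ∧ Γ'.relIndex Γ ≠ 0 ∧
    ∀ g ∈ Γ', actF (slot a b (g : Matrix n n ℂ) ((g⁻¹ : GL n ℂ) : Matrix n n ℂ)) t = t

/-- `Γ` consists of similitudes of `Q`, and `R p` is the projection to the part of Hodge-Tate weight `p`; the
ranks are the Hodge numbers, and the tensors fixed by subgroups of finite index have weight zero. -/
structure IsGal (m : ℤ) (Q : Matrix n n ℚ) (S : Finset ℤ) (P : ℤ → Matrix n n ℂ) (Γ : Subgroup (GL n ℂ))
    (R : ℤ → Matrix n n ℂ) : Prop where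
  sim : ∀ g ∈ Γ, ∃ z : ℂ, (m = 0 → z = 1) ∧ (g : Matrix n n ℂ)ᵀ * toC Q * (g : Matrix n n ℂ) = z ^ 2 • toC Q
  mul : ∀ p q, R p * R q = if p = q then R p else 0
  sum : ∑ p ∈ S, R p = 1
  rank : ∀ p, (R p).rank = (P p).rank
  ht : ∀ a b t, IsTateTensor Γ a b t → ∀ z : ℂ, z ≠ 0 →
    actF (slot a b (∑ p ∈ S, z ^ p • R p) (∑ p ∈ S, z⁻¹ ^ p • R p)) t = t

/-- `W` has no proper subspace stable under a subgroup of finite index. -/
def VIrr (Γ : Subgroup (GL n ℂ)) : Prop :=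
  ∀ Γ' : Subgroup (GL n ℂ), Γ' ≤ Γ → Γ'.relIndex Γ ≠ 0 → ∀ W : Submodule ℂ (n → ℂ),
    (∀ g ∈ Γ', ∀ w ∈ W, (g : Matrix n n ℂ) *ᵥ w ∈ W) → W = ⊥ ∨ W = ⊤

/-- The matrices that kill all the tensors that are fixed by subgroups of finite index of `Γ`. -/
noncomputable def LG (Γ : Subgroup (GL n ℂ)) : Submodule ℂ (Matrix n n ℂ) where
  carrier := {X | ∀ a b t, IsTateTensor Γ a b t → dL a b t X = 0}
  add_mem' := by
    intro X Y hX hY a b t ht
    rw [map_add, hX a b t ht, hY a b t ht, add_zero]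
  zero_mem' := fun a b t _ => map_zero _
  smul_mem' := by
    intro c X hX a b t ht
    rw [map_smul, hX a b t ht, smul_zero]

end MH
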