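import Pool.Agent.Helper56.EL.Lie
import Pool.Agent.Helper53.EL.Cliff
import Pool.Agent.Helper67.EL.Scal
import Pool.Agent.Helper21.MH.Full4
import Pool.Agent.Helper61.EL.Fix
import Pool.Agent.Helper5.EL.MTle
import Pool.Agent.Helper30.EL.Idx
import Pool.Agent.Helper57.CF.Mat

/-!
The `ℓ`-adic side (project CF for MP_b8862a_ag), assembly: the tensors fixed by subgroups of finite index of the
Galois group are the tensors fixed by the Mumford-Tate group.
-/

set_option linter.unusedSectionVars false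

open Matrix

namespace MH

variable {n : Type*} [Fintype n] [DecidableEq n]
variable {m : ℤ} {Q : Matrix n n ℚ} {S : Finset ℤ} {P R : ℤ → Matrix n n ℂ} {Γ : Subgroup (GL n ℂ)}

namespace IsGal

variable (G : IsGal m Q S P Γ R)
include G

theorem R_supp {p : ℤ} (hp : p ∉ S) : R p = 0 := by
  have h1 : R p = R p * ∑ q ∈ S, R q := by rw [G.sum, mul_one]
  rw [h1, Finset.mul_sum]
  refine Finset.sum_eq_zero fun q hq => ?_
  rw [G.mul, if_neg]
  rintro rfl
  exact hp hq

/-- the spectral projections of `∑ (p - c) R p` -/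
noncomputable def EG (_ : IsGal m Q S P Γ R) (c : ℤ) (μ : ℝ) : Matrix n n ℂ :=
  ∑ p ∈ S.filter (fun p => ((p - c : ℤ) : ℝ) = μ), R p

theorem EG_int (c p : ℤ) : G.EG c ((p - c : ℤ) : ℝ) = R p := by
  unfold EG
  by_cases hp : p ∈ S
  · rw [Finset.sum_eq_single p]
    · intro q hq hqp
      exfalso
      apply hqp
      have h1 : ((q - c : ℤ) : ℝ) = ((p - c : ℤ) : ℝ) := (Finset.mem_filter.1 hq).2
      have h2 : q - c = p - c := by exact_mod_cast h1
      omega
    · intro h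
      exact (h (Finset.mem_filter.2 ⟨hp, rfl⟩)).elim
  · rw [G.R_supp hp]
    refine Finset.sum_eq_zero fun q hq => ?_
    have h1 : ((q - c : ℤ) : ℝ) = ((p - c : ℤ) : ℝ) := (Finset.mem_filter.1 hq).2
    have h2 : q - c = p - c := by exact_mod_cast h1
    have h3 : q = p := by omega
    rw [h3, G.R_supp hp]

theorem EG_other (c : ℤ) {μ : ℝ} (h : ∀ p ∈ S, ((p - c : ℤ) : ℝ) ≠ μ) : G.EG c μ = 0 := by
  unfold EG
  rw [Finset.filter_false_of_mem h, Finset.sum_empty]

theorem sd (c : ℤ) : SD (∑ p ∈ S, ((p - c : ℤ) : ℂ) • R p) (G.EG c) (LamS c S) := by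
  refine ⟨?_, ?_, ?_⟩
  · intro μ ν
    by_cases hμ : ∃ p ∈ S, ((p - c : ℤ) : ℝ) = μ
    · obtain ⟨p, _, rfl⟩ := hμ
      by_cases hν : ∃ q ∈ S, ((q - c : ℤ) : ℝ) = ν
      · obtain ⟨q, _, rfl⟩ := hν
        rw [G.EG_int, G.EG_int, G.mul]
        by_cases hpq : p = q
        · rw [if_pos hpq, if_pos (by rw [hpq])]
        · rw [if_neg hpq, if_neg]
          intro h
          have h3 : p - c = q - c := by exact_mod_cast h
          exact hpq (by omega)
      · push Not at hν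
        rw [G.EG_other c hν, mul_zero]
        split_ifs with h
        · rw [h, G.EG_other c hν]
        · rfl
    · push Not at hμ
      rw [G.EG_other c hμ, zero_mul]
      simp
  · unfold LamS
    rw [Finset.sum_image (cast_inj c)]
    simp_rw [G.EG_int]
    exact G.sum
  · unfold LamS
    rw [Finset.sum_image (cast_inj c)]
    simp_rw [G.EG_int]
    refine Finset.sum_congr rfl fun p _ => ?_
    push_cast
    rfl

theorem rank_zero {p : ℤ} (hp : P p = 0) : R p = 0 := by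
  have h1 := G.rank p
  rw [hp, Matrix.rank_zero] at h1
  rw [Matrix.rank, Submodule.finrank_eq_zero, LinearMap.range_eq_bot] at h1
  apply Matrix.toLin'.injective
  rw [map_zero]
  exact h1

theorem div_iff (H : IsHS m Q S P) (hd : ∀ d : ℕ, (∀ p, d ∣ (P p).rank) → d = 1) (c : ℤ) (d : ℕ)
    (h : ∀ μ ∈ LamS c S, d ∣ (G.EG c μ).rank) : d = 1 := by
  apply hd
  intro p
  by_cases hp : p ∈ S
  · have h1 := h ((p - c : ℤ) : ℝ) (Finset.mem_image.2 ⟨p, hp, rfl⟩)
    rwa [G.EG_int, G.rank] at h1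
  · rw [H.supp p hp, Matrix.rank_zero]
    exact dvd_zero d

end IsGal

theorem trace_h0 (H : IsHS m Q S P) (G : IsGal m Q S P Γ R) :
    (∑ p ∈ S, ((p - m : ℤ) : ℂ) • R p).trace = 0 := by
  have hPP : ∀ p, P p * P p = P p := fun p => by rw [H.mul, if_pos rfl]
  have hRR : ∀ p, R p * R p = R p := fun p => by rw [G.mul, if_pos rfl]
  have e1 : ∀ p, (R p).trace = (P p).trace := by
    intro p
    rw [trace_eq_rank (hRR p), trace_eq_rank (hPP p), G.rank]
  have e2 : (∑ p ∈ S, ((p - m : ℤ) : ℂ) • R p).trace = (∑ p ∈ S, ((p - m : ℤ) : ℂ) • P p).trace := by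
    rw [Matrix.trace_sum, Matrix.trace_sum]
    refine Finset.sum_congr rfl fun p _ => ?_
    rw [Matrix.trace_smul, Matrix.trace_smul, e1]
  rw [e2]
  have e3 := congrArg Matrix.trace (H.reflect (fun p => ((p - m : ℤ) : ℂ)))
  have e4 : (∑ p ∈ S, ((p - m : ℤ) : ℂ) • P (2 * m - p)).trace = (∑ p ∈ S, ((p - m : ℤ) : ℂ) • P p).trace := by
    rw [Matrix.trace_sum, Matrix.trace_sum]
    refine Finset.sum_congr rfl fun p _ => ?_
    rw [Matrix.trace_smul, Matrix.trace_smul]
    congr 1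
    rw [← H.conj p, trace_eq_rank (hPP p)]
    have : ((P p).map (starRingEnd ℂ)).trace = starRingEnd ℂ ((P p).trace) := by
      simp [Matrix.trace, map_sum]
    rw [this, trace_eq_rank (hPP p), map_natCast]
  rw [e4] at e3
  have e5 : (∑ p ∈ S, ((2 * m - p - m : ℤ) : ℂ) • P p).trace = -(∑ p ∈ S, ((p - m : ℤ) : ℂ) • P p).trace := by
    rw [Matrix.trace_sum, Matrix.trace_sum, ← Finset.sum_neg_distrib]
    refine Finset.sum_congr rfl fun p _ => ?_
    rw [Matrix.trace_smul, Matrix.trace_smul, smul_eq_mul, smul_eq_mul]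
    push_cast
    ring
  rw [e5] at e3
  linear_combination e3 / 2

/-- the part of `LG` that is skew for the polarisation -/
noncomputable def LS (Q : Matrix n n ℚ) (Γ : Subgroup (GL n ℂ)) : Submodule ℂ (Matrix n n ℂ) where
  carrier := {X | X ∈ LG Γ ∧ Xᵀ * toC Q + toC Q * X = 0}
  add_mem' := by
    rintro X Y ⟨h1, h2⟩ ⟨h3, h4⟩
    refine ⟨(LG Γ).add_mem h1 h3, ?_⟩
    rw [Matrix.transpose_add, add_mul, mul_add]
    calc Xᵀ * toC Q + Yᵀ * toC Q + (toC Q * X + toC Q * Y)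
        = (Xᵀ * toC Q + toC Q * X) + (Yᵀ * toC Q + toC Q * Y) := by abel
      _ = 0 := by rw [h2, h4, add_zero]
  zero_mem' := ⟨(LG Γ).zero_mem, by simp⟩
  smul_mem' := by
    rintro c X ⟨h1, h2⟩
    refine ⟨(LG Γ).smul_mem c h1, ?_⟩
    rw [Matrix.transpose_smul, smul_mul_assoc, mul_smul_comm, ← smul_add, h2, smul_zero]

theorem LS_br {X Y : Matrix n n ℂ} (hX : X ∈ LS Q Γ) (hY : Y ∈ LS Q Γ) : X * Y - Y * X ∈ LS Q Γ := by
  refine ⟨LG_br hX.1 hY.1, ?_⟩
  have e1 : Xᵀ * toC Q = -(toC Q * X) := eq_neg_of_add_eq_zero_left hX.2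
  have e2 : Yᵀ * toC Q = -(toC Q * Y) := eq_neg_of_add_eq_zero_left hY.2
  rw [Matrix.transpose_sub, Matrix.transpose_mul, Matrix.transpose_mul, sub_mul, mul_assoc, mul_assoc, e1, e2,
    mul_neg, mul_neg, ← mul_assoc, ← mul_assoc, e1, e2]
  noncomm_ring

/-- **The tensors fixed by subgroups of finite index of the Galois group are the tensors fixed by the Mumford-Tate
group.** -/
theorem tate_iff4 (H : IsHS m Q S P) (G : IsGal m Q S P Γ R) (hirr : VIrr Γ)
    (hMT : ∀ (g : GL n ℂ) (z : ℂ), (m = 0 → z = 1) → (g : Matrix n n ℂ)ᵀ * toC Q * (g : Matrix n n ℂ) = z ^ 2 • toC Q →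
      (g : Matrix n n ℂ).det = z ^ Fintype.card n → g ∈ MT S P)
    (hs : 2 ≤ ∑ p ∈ S.filter (fun p => m < p), (P p).rank)
    (hb : (∑ p ∈ S.filter (fun p => m < p), (P p).rank) ^ 2 < (P m).rank)
    (hd : ∀ d : ℕ, (∀ p, d ∣ (P p).rank) → d = 1) (a b : ℕ) (t : (Fin a ⊕ Fin b → n) → ℂ) :
    IsTateTensor Γ a b t ↔ ∀ g ∈ MT S P, actF (slot a b (g : Matrix n n ℂ) ((g⁻¹ : GL n ℂ) : Matrix n n ℂ)) t = t := by
  classical
  have hn : Nonempty n := by
    by_contra h
    rw [not_nonempty_iff] at h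
    have : ∑ p ∈ S.filter (fun p => m < p), (P p).rank = 0 := by
      refine Finset.sum_eq_zero fun p _ => ?_
      have h1 := Matrix.rank_le_card_width (P p)
      rw [Fintype.card_eq_zero] at h1
      omega
    omega
  have hn0 : ((Fintype.card n : ℕ) : ℂ) ≠ 0 := by
    exact_mod_cast Fintype.card_ne_zero
  obtain ⟨B, Bi, Qi, _, _, hQ1, hQ2, _⟩ := H.exists_basis
  have hQ0 : toC Q ≠ 0 := by
    intro h
    rw [h, zero_mul] at hQ1
    exact one_ne_zero hQ1.symm
  have hQd : (toC Q).det ≠ 0 := by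
    intro h
    have := congrArg Matrix.det hQ1
    rw [Matrix.det_mul, h, zero_mul, Matrix.det_one] at this
    exact zero_ne_one this
  -- the Lie algebra `LG` is irreducible
  have hsum0 : ∑ p ∈ S, ((p - 0 : ℤ) : ℂ) • R p = ∑ p ∈ S, (p : ℂ) • R p := by simp
  have hG : ∀ W : Submodule ℂ (n → ℂ), (∀ X ∈ LG Γ, ∀ w ∈ W, X *ᵥ w ∈ W) → W = ⊥ ∨ W = ⊤ := by
    intro W hW
    refine clifford (LG Γ) (fun g hg X hX => LG_conj hg hX) hirr G.h_mem (E := G.EG 0) (Λ := LamS 0 S) ?_ ?_ W hW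
    · rw [← hsum0]
      exact G.sd 0
    · exact fun d hdd => G.div_iff H hd 0 d hdd
  -- scalars
  have hh0 : ∑ p ∈ S, ((p - m : ℤ) : ℂ) • R p = (∑ p ∈ S, (p : ℂ) • R p) - (m : ℂ) • (1 : Matrix n n ℂ) := by
    rw [← G.sum, Finset.smul_sum, ← Finset.sum_sub_distrib]
    refine Finset.sum_congr rfl fun p _ => ?_
    rw [← sub_smul]
    push_cast
    rfl
  have htr := trace_h0 H G
  have h1G : m ≠ 0 → (1 : Matrix n n ℂ) ∈ LG Γ := by
    intro hm
    have h1 := scalar_mem (LG Γ) (fun X hX Y hY => LG_br hX hY) hG G.h_mem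
    have h2 : (∑ p ∈ S, (p : ℂ) • R p).trace = (m : ℂ) * Fintype.card n := by
      rw [hh0, Matrix.trace_sub, Matrix.trace_smul, Matrix.trace_one, smul_eq_mul] at htr
      linear_combination htr
    rw [h2] at h1
    have h3 := (LG Γ).smul_mem ((m : ℂ) * Fintype.card n)⁻¹ h1
    rwa [smul_smul, inv_mul_cancel₀ (mul_ne_zero (by exact_mod_cast hm) hn0), one_smul] at h3
  have hh0G : ∑ p ∈ S, ((p - m : ℤ) : ℂ) • R p ∈ LG Γ := by
    rw [hh0]
    by_cases hm : m = 0
    · rw [hm, Int.cast_zero, zero_smul, sub_zero]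
      exact G.h_mem
    · exact (LG Γ).sub_mem G.h_mem ((LG Γ).smul_mem _ (h1G hm))
  -- the skew part
  have hhS : ∑ p ∈ S, ((p - m : ℤ) : ℂ) • R p ∈ LS Q Γ := by
    refine ⟨hh0G, ?_⟩
    obtain ⟨c, _, hc⟩ := G.LG_sim H hh0G
    set X := ∑ p ∈ S, ((p - m : ℤ) : ℂ) • R p
    have h1 : (Xᵀ + toC Q * X * Qi).trace = c * Fintype.card n := by
      have h2 : Xᵀ + toC Q * X * Qi = c • (1 : Matrix n n ℂ) := by
        have h3 := congrArg (fun Y => Y * Qi) hc
        simp only [add_mul, smul_mul_assoc, hQ1] at h3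
        rw [mul_assoc Xᵀ, hQ1, mul_one] at h3
        exact h3
      rw [h2, Matrix.trace_smul, Matrix.trace_one, smul_eq_mul]
    rw [Matrix.trace_add, Matrix.trace_transpose, Matrix.trace_mul_comm, ← mul_assoc, hQ2, one_mul, htr,
      add_zero] at h1
    have h2 : c = 0 := by
      rcases mul_eq_zero.1 h1.symm with h | h
      · exact h
      · exact absurd h hn0
    rw [hc, h2, zero_smul]
  have hSirr : ∀ W : Submodule ℂ (n → ℂ), (∀ X ∈ LS Q Γ, ∀ w ∈ W, X *ᵥ w ∈ W) → W = ⊥ ∨ W = ⊤ := by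
    intro W hW
    apply hG
    intro X hX w hw
    obtain ⟨c, hc0, hc⟩ := G.LG_sim H hX
    by_cases hm : m = 0
    · exact hW X ⟨hX, by rw [hc, hc0 hm, zero_smul]⟩ w hw
    · have h1 : X - (c / 2) • (1 : Matrix n n ℂ) ∈ LS Q Γ := by
        refine ⟨(LG Γ).sub_mem hX ((LG Γ).smul_mem _ (h1G hm)), ?_⟩
        rw [Matrix.transpose_sub, Matrix.transpose_smul, Matrix.transpose_one, sub_mul, mul_sub, smul_mul_assoc,
          one_mul, mul_smul_comm, mul_one]
        have : Xᵀ * toC Q - (c / 2) • toC Q + (toC Q * X - (c / 2) • toC Q) =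
            (Xᵀ * toC Q + toC Q * X) - c • toC Q := by
          have h2 : c • toC Q = (c / 2) • toC Q + (c / 2) • toC Q := by
            rw [← add_smul]
            congr 1
            ring
          rw [h2]
          abel
        rw [this, hc, sub_self]
      have h2 := hW _ h1 w hw
      have h3 : X *ᵥ w = (X - (c / 2) • (1 : Matrix n n ℂ)) *ᵥ w + (c / 2) • w := by
        rw [Matrix.sub_mulVec, Matrix.smul_mulVec, Matrix.one_mulVec]
        abel
      rw [h3]
      exact W.add_mem h2 (W.smul_mem _ hw)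
  -- everything skew is in the Lie algebra
  have hE0 : (G.EG m 0).rank = (P m).rank := by
    have h1 := G.EG_int m m
    rw [sub_self, Int.cast_zero] at h1
    rw [h1, G.rank]
  have hEP : ∑ μ ∈ (LamS m S).filter (fun μ => 0 < μ), (G.EG m μ).rank =
      ∑ p ∈ S.filter (fun p => m < p), (P p).rank := by
    unfold LamS
    rw [Finset.sum_filter, Finset.sum_image (cast_inj m), Finset.sum_filter]
    refine Finset.sum_congr rfl fun p _ => ?_
    rw [G.EG_int, G.rank]
    have e4 : (0 : ℝ) < ((p - m : ℤ) : ℝ) ↔ m < p := by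
      rw [← Int.cast_zero, Int.cast_lt]
      omega
    simp only [e4]
  have hfull : ∀ X : Matrix n n ℂ, Xᵀ * toC Q + toC Q * X = 0 → X ∈ LS Q Γ := by
    intro X hX
    refine full_of_irr4 (toC Q) Qi H.Q_symm hQ1 hQ2 (LS Q Γ) (fun X hX Y hY => LS_br hX hY) hSirr
      (fun X hX => hX.2) hhS (G.sd m) ?_ ?_ ?_
      (fun _ htr => exists_herm (LS Q Γ) (fun X hX Y hY => LS_br hX hY) hSirr htr hhS (G.sd m)) hX
    · rw [hEP]
      exact hs
    · rw [hEP, hE0]
      exact hb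
    · exact fun d hdd => G.div_iff H hd m d hdd
  constructor
  · intro ht g hg
    have hk : ∀ X : Matrix n n ℂ, Xᵀ * toC Q + toC Q * X = 0 → dL a b t X = 0 := fun X hX => (hfull X hX).1 a b t ht
    obtain ⟨z, hz0, hz1, hz2⟩ := MT_le H hg
    by_cases hm : m = 0
    · rw [hz0 hm, one_pow, one_smul] at hz1
      rw [hz0 hm, one_pow] at hz2
      exact so_fix (toC Q) H.Q_symm hQd hk hz1 hz2
    · have hz : z ≠ 0 := by
        rintro rfl
        have h1 : (g : Matrix n n ℂ) * ((g⁻¹ : GL n ℂ) : Matrix n n ℂ) = 1 := by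
          rw [← Units.val_mul, mul_inv_cancel, Units.val_one]
        have h2 := congrArg Matrix.det h1
        rw [Matrix.det_mul, hz2, zero_pow Fintype.card_ne_zero, zero_mul, Matrix.det_one] at h2
        exact zero_ne_one h2
      have hsc : ∀ w : ℂ, w ≠ 0 → ∀ f : GL n ℂ, ∃ f' : GL n ℂ, (f' : Matrix n n ℂ) = w • (f : Matrix n n ℂ) := by
        intro w hw f
        refine ⟨⟨w • (f : Matrix n n ℂ), w⁻¹ • ((f⁻¹ : GL n ℂ) : Matrix n n ℂ), ?_, ?_⟩, rfl⟩
        · rw [smul_mul_smul_comm, mul_inv_cancel₀ hw, one_smul, ← Units.val_mul, mul_inv_cancel, Units.val_one]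
        · rw [smul_mul_smul_comm, inv_mul_cancel₀ hw, one_smul, ← Units.val_mul, inv_mul_cancel, Units.val_one]
      obtain ⟨g₀, hg₀⟩ := hsc z⁻¹ (inv_ne_zero hz) g
      obtain ⟨z₁, hz₁⟩ := hsc z hz 1
      have h1 : (g₀ : Matrix n n ℂ)ᵀ * toC Q * (g₀ : Matrix n n ℂ) = toC Q := by
        rw [hg₀, Matrix.transpose_smul, smul_mul_assoc, smul_mul_assoc, mul_smul_comm, smul_smul, hz1, smul_smul]
        have : z⁻¹ * z⁻¹ * z ^ 2 = 1 := by field_simp
        rw [this, one_smul]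
      have h2 : (g₀ : Matrix n n ℂ).det = 1 := by
        rw [hg₀, Matrix.det_smul, hz2, ← mul_pow, inv_mul_cancel₀ hz, one_pow]
      have h3 := so_fix (toC Q) H.Q_symm hQd hk h1 h2
      have h4 := scal_fix (a := a) (b := b) (t := t) (h1G hm a b t ht) (g := z₁) (z := z)
        (by rw [hz₁, Units.val_one])
      have h5 : g = z₁ * g₀ := by
        apply Units.ext
        rw [Units.val_mul, hz₁, hg₀, Units.val_one, smul_mul_smul_comm, mul_inv_cancel₀ hz, one_smul, one_mul]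
      have e1 : slot a b ((z₁ * g₀ : GL n ℂ) : Matrix n n ℂ) (((z₁ * g₀)⁻¹ : GL n ℂ) : Matrix n n ℂ) =
          fun k => slot a b (z₁ : Matrix n n ℂ) ((z₁⁻¹ : GL n ℂ) : Matrix n n ℂ) k *
            slot a b (g₀ : Matrix n n ℂ) ((g₀⁻¹ : GL n ℂ) : Matrix n n ℂ) k := by
        funext k
        rcases k with k | k
        · rfl
        · simp only [slot, Sum.elim_inr, _root_.mul_inv_rev, Units.val_mul, Matrix.transpose_mul]
      rw [h5, e1, ← actF_mul, h3, h4]
  · intro ht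
    obtain ⟨Γ', h1, h2, h3⟩ := exists_idx H G
    refine ⟨Γ', h1, h2, fun g hg => ?_⟩
    obtain ⟨z, a1, a2, a3⟩ := h3 g hg
    exact ht g (hMT g z a1 a2 a3)

end MH
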