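import Pool.Agent.Helper2.EL.Defs

/-!
The `ℓ`-adic side (project CF for MP_b8862a_ag): irreducibility over the field of definition `F` (`ℚ_ℓ`).
-/

set_option linter.unusedSectionVars false

open Matrix

namespace MH

variable {n : Type*} [Fintype n] [DecidableEq n] {F : Type*} [Field F]

/-- `F ^ n` is irreducible under `Γ` and only the scalars commute with `Γ`. -/
def AbsIrr (Γ : Subgroup (GL n F)) : Prop :=
  (∀ W : Submodule F (n → F), (∀ g ∈ Γ, ∀ w ∈ W, (g : Matrix n n F) *ᵥ w ∈ W) → W = ⊥ ∨ W = ⊤) ∧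
    ∀ T : Matrix n n F, (∀ g ∈ Γ, (g : Matrix n n F) * T = T * (g : Matrix n n F)) →
      ∃ c : F, T = c • (1 : Matrix n n F)

/-- `F ^ n` is absolutely irreducible under all subgroups of finite index of `Γ`. -/
def PotIrr (Γ : Subgroup (GL n F)) : Prop :=
  ∀ Γ' : Subgroup (GL n F), Γ' ≤ Γ → Γ'.relIndex Γ ≠ 0 → AbsIrr Γ'

/-- Some element of `Γ` is irreducible over `F` together with all its powers, and some element has, together with
all its powers, a simple eigenvalue in `F`. -/
def HasFrobPair (Γ : Subgroup (GL n F)) : Prop :=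
  (∃ g ∈ Γ, ∀ N : ℕ, 0 < N → Irreducible ((g : Matrix n n F) ^ N).charpoly) ∧
    ∃ g ∈ Γ, ∀ N : ℕ, 0 < N → ∃ c : F, ((g : Matrix n n F) ^ N).charpoly.rootMultiplicity c = 1

end MH
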